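import Pool.Agent.Helper720.PowTorus

set_option autoImplicit false

open MvPolynomial

namespace Pool.Agent.Results.MP_8b82cd_ag.StrongLefschetz

open Pool.Agent.Helper720.Pow
open Pool.Agent.Helper720.Level (lin)

/-- Multiplication by `L ^ j` from degree `i` to degree `i + j` of the graded algebra `S / J`
is injective or surjective. -/
def MaxRank {K : Type*} [Field K] {n : ℕ} (J : Ideal (MvPolynomial (Fin n) K))
    (L : MvPolynomial (Fin n) K) (i j : ℕ) : Prop :=
  (∀ f : MvPolynomial (Fin n) K, f.IsHomogeneous i → L ^ j * f ∈ J → f ∈ J) ∨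
  (∀ g : MvPolynomial (Fin n) K, g.IsHomogeneous (i + j) →
    ∃ f : MvPolynomial (Fin n) K, f.IsHomogeneous i ∧ g - L ^ j * f ∈ J)

/-- The strong Lefschetz property of `S / J`: for a generic linear form, that is for all linear
forms `∑ a_c x_c` whose coefficient vector `a` lies outside the zero set of some nonzero
polynomial `P`, all multiplications by `ℓ ^ j`, `j ≥ 1`, have maximal rank. -/
def GenericSLP {K : Type*} [Field K] {n : ℕ} (J : Ideal (MvPolynomial (Fin n) K)) : Prop :=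
  ∃ P : MvPolynomial (Fin n) K, P ≠ 0 ∧ ∀ a : Fin n → K, eval a P ≠ 0 →
    ∀ i j : ℕ, 1 ≤ j → MaxRank J (∑ c, C (a c) * X c) i j

/-- The strong Lefschetz property of `S / J`, weaker looking form: some linear form works. -/
def SomeSLP {K : Type*} [Field K] {n : ℕ} (J : Ideal (MvPolynomial (Fin n) K)) : Prop :=
  ∃ L : MvPolynomial (Fin n) K, L.IsHomogeneous 1 ∧ ∀ i j : ℕ, 1 ≤ j → MaxRank J L i j

/-- The algebra `T_{n,d,k} = S / (x_1 ^ d, …, x_n ^ d) ^ k` has the strong Lefschetz property if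
and only if `n ≤ 2`, or `d = 1`, or `k = 1`, or `d = k = 2`, or `(n, d, k)` is `(3, 2, 3)` or
`(3, 3, 2)`. -/
theorem result {K : Type*} [Field K] [CharZero K] {n d k : ℕ} (hn : 1 ≤ n) (hd : 1 ≤ d)
    (hk : 1 ≤ k) :
    (GenericSLP
      ((Ideal.span (Set.range fun c : Fin n => (X c : MvPolynomial (Fin n) K) ^ d)) ^ k) ↔
      (n ≤ 2 ∨ d = 1 ∨ k = 1 ∨ (d = 2 ∧ k = 2) ∨ (n = 3 ∧ d = 2 ∧ k = 3) ∨
        (n = 3 ∧ d = 3 ∧ k = 2))) ∧
    (SomeSLP
      ((Ideal.span (Set.range fun c : Fin n => (X c : MvPolynomial (Fin n) K) ^ d)) ^ k) ↔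
      (n ≤ 2 ∨ d = 1 ∨ k = 1 ∨ (d = 2 ∧ k = 2) ∨ (n = 3 ∧ d = 2 ∧ k = 3) ∨
        (n = 3 ∧ d = 3 ∧ k = 2))) := by
  have hmain := slp_classification (K := K) hn hd hk
  have hsome : SomeSLP (powIdeal K n d k) ↔ HasSLP (powIdeal K n d k) := Iff.rfl
  have hgs : GenericSLP (powIdeal K n d k) → SomeSLP (powIdeal K n d k) := by
    rintro ⟨P, hP, h⟩
    obtain ⟨a, ha⟩ : ∃ a : Fin n → K, eval a P ≠ 0 := by
      by_contra hcon
      push Not at hcon
      exact hP (MvPolynomial.funext fun a => by rw [hcon a, map_zero])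
    exact ⟨∑ c, C (a c) * X c, Pool.Agent.Helper720.Level.lin_homogeneous a, h a ha⟩
  have hsg : HasSLP (powIdeal K n d k) → GenericSLP (powIdeal K n d k) := by
    intro h
    rw [hasSLP_iff hd] at h
    refine ⟨∏ c, X c, Finset.prod_ne_zero_iff.2 fun c _ => X_ne_zero c, ?_⟩
    intro a ha i j hj
    have ha' : ∀ c, a c ≠ 0 := by
      rw [map_prod] at ha
      intro c
      have := Finset.prod_ne_zero_iff.1 ha c (Finset.mem_univ c)
      rwa [eval_X] at this
    rcases h i j hj with h | h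
    · exact Or.inl (torus_inj ha' hd h)
    · exact Or.inr (torus_surj ha' hd h)
  refine ⟨⟨fun h => hmain.1 (hsome.1 (hgs h)), fun h => hsg (hmain.2 h)⟩, ?_⟩
  exact hsome.trans hmain

end Pool.Agent.Results.MP_8b82cd_ag.StrongLefschetz
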